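import Pool.Agent.U409.OA.Stm3

set_option autoImplicit false

/-! Project OA, package PERM: the partition functions `G` and `A` are symmetric in their parameters. -/

namespace Pool.Agent.U122.OA

open Pool.Agent.U409.OA Filter Topology

/-- invariance under adjacent exchanges gives invariance under permutations -/
theorem perm_of_swap {B : Type} (F : List ℂ → B)
    (h : ∀ (pre post : List ℂ) (a b : ℂ), F (pre ++ a :: b :: post) = F (pre ++ b :: a :: post)) :
    ∀ {l l' : List ℂ}, l.Perm l' → ∀ pre : List ℂ, F (pre ++ l) = F (pre ++ l') := by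
  intro l l' hl
  induction hl with
  | nil => intro pre; rfl
  | cons x _ ih =>
    intro pre
    have := ih (pre ++ [x])
    simpa using this
  | swap x y l => intro pre; exact h pre l y x
  | trans _ _ ih1 ih2 => intro pre; exact (ih1 pre).trans (ih2 pre)

/-- a function which is continuous along `a + t` on both sides and whose two sides agree up to the factor
`z a + z² b` -/
theorem swap_of_cont (z : ℂ) (hz : z ≠ 0) (a b : ℂ) (f g : ℂ → ℂ)
    (hf : ContinuousAt (fun t : ℝ => f (a + t)) 0) (hg : ContinuousAt (fun t : ℝ => g (a + t)) 0)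
    (h : ∀ a', (z * a' + z ^ 2 * b) * f a' = (z * a' + z ^ 2 * b) * g a') : f a = g a := by
  by_cases h0 : z * a + z ^ 2 * b = 0
  · have e1 : ∀ᶠ t : ℝ in 𝓝[≠] 0, f (a + t) = g (a + t) := by
      filter_upwards [self_mem_nhdsWithin] with t ht
      have ht' : (t : ℂ) ≠ 0 := by
        have : t ≠ 0 := ht
        exact_mod_cast this
      have hne : z * (a + t) + z ^ 2 * b ≠ 0 := by
        have : z * (a + t) + z ^ 2 * b = z * t := by linear_combination h0
        rw [this]
        exact mul_ne_zero hz ht'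
      exact mul_left_cancel₀ hne (h (a + t))
    have t1 : Tendsto (fun t : ℝ => f (a + t)) (𝓝[≠] 0) (𝓝 (f (a + (0 : ℝ)))) :=
      hf.tendsto.mono_left nhdsWithin_le_nhds
    have t2 : Tendsto (fun t : ℝ => g (a + t)) (𝓝[≠] 0) (𝓝 (g (a + (0 : ℝ)))) :=
      hg.tendsto.mono_left nhdsWithin_le_nhds
    have := tendsto_nhds_unique (t1.congr' e1) t2
    simpa using this
  · exact mul_left_cancel₀ h0 (h a)

theorem G_swap (hYB : S_YB) (hSYM : S_SYM) (z : ℂ) (hz : z ^ 2 = z - 1)
    (pre post : List ℂ) (a b : ℂ) :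
    (z * a + z ^ 2 * b) * G z (pre ++ a :: b :: post) =
      (z * a + z ^ 2 * b) * G z (pre ++ b :: a :: post) := by
  obtain ⟨h1, h2, -, h4, h5, h6⟩ := hYB ℂ z 0 hz
  exact hSYM ℂ ℂ _ _ _ _ h1 h2 h4 h5 h6 pre post a b

theorem A_swap (hYB : S_YB) (hSYM : S_SYM) (z : ℂ) (hz : z ^ 2 = z - 1)
    (pre post : List ℂ) (a b : ℂ) :
    (z * a + z ^ 2 * b) * A z (pre ++ a :: b :: post) =
      (z * a + z ^ 2 * b) * A z (pre ++ b :: a :: post) := by
  have hz' : (TrivSqZeroExt.inl z : DualNumber ℂ) ^ 2 = TrivSqZeroExt.inl z - 1 := by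
    rw [TrivSqZeroExt.inl_pow, hz, TrivSqZeroExt.inl_sub, TrivSqZeroExt.inl_one]
  obtain ⟨h1, h2, h3, -, h5, h6⟩ := hYB (DualNumber ℂ) (TrivSqZeroExt.inl z) DualNumber.eps hz'
  have key := hSYM ℂ (DualNumber ℂ)
    (fun a b => cw (TrivSqZeroExt.inl z) (TrivSqZeroExt.inl a * TrivSqZeroExt.inl b))
    (fun a b => sw (TrivSqZeroExt.inl z) (TrivSqZeroExt.inl a) (TrivSqZeroExt.inl b))
    (fun w => ke (TrivSqZeroExt.inl z) DualNumber.eps (TrivSqZeroExt.inl w))
    (fun a b => TrivSqZeroExt.inl z * TrivSqZeroExt.inl a +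
      TrivSqZeroExt.inl z ^ 2 * TrivSqZeroExt.inl b)
    (fun w a b => h1 _ _ _) (fun a b j => h2 _ _ _) (fun a b => h3 _ _) (fun a b => h5 _ _)
    (fun a b => h6 _ _) pre post a b
  have h7 : (TrivSqZeroExt.inl z * TrivSqZeroExt.inl a +
      TrivSqZeroExt.inl z ^ 2 * TrivSqZeroExt.inl b : DualNumber ℂ) =
      TrivSqZeroExt.inl (z * a + z ^ 2 * b) := by
    rw [TrivSqZeroExt.inl_add, TrivSqZeroExt.inl_mul, TrivSqZeroExt.inl_mul, TrivSqZeroExt.inl_pow]
  have h8 := congrArg TrivSqZeroExt.snd key
  simp only [h7] at h8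
  rw [TrivSqZeroExt.snd_mul, TrivSqZeroExt.snd_mul] at h8
  simpa [A, ZD] using h8

theorem t_PERM (hYB : S_YB) (hSYM : S_SYM) (hC : S_CONT) : S_PERM := by
  intro z hz l l' hl
  have hz0 : z ≠ 0 := by
    rintro rfl
    norm_num at hz
  -- continuity along one variable
  have hcont : ∀ (pre post : List ℂ) (a : ℂ),
      ContinuousAt (fun t : ℝ => G z (pre ++ (a + t) :: post)) 0 ∧
      ContinuousAt (fun t : ℝ => A z (pre ++ (a + t) :: post)) 0 := by
    intro pre post a
    have := hC z (pre.map (fun c => fun _ : ℝ => c) ++ (fun t : ℝ => a + (t : ℂ)) ::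
      post.map (fun c => fun _ : ℝ => c)) 0 (by
        intro f hf
        simp only [List.mem_append, List.mem_map, List.mem_cons] at hf
        rcases hf with ⟨c, -, rfl⟩ | rfl | ⟨c, -, rfl⟩
        · exact continuousAt_const
        · exact (continuous_const.add Complex.continuous_ofReal).continuousAt
        · exact continuousAt_const)
    simpa [List.map_append, List.map_map, Function.comp_def] using this
  have hcont2 : ∀ (pre post : List ℂ) (a b : ℂ),
      ContinuousAt (fun t : ℝ => G z (pre ++ b :: (a + t) :: post)) 0 ∧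
      ContinuousAt (fun t : ℝ => A z (pre ++ b :: (a + t) :: post)) 0 := by
    intro pre post a b
    have := hcont (pre ++ [b]) post a
    simpa using this
  refine ⟨?_, ?_⟩
  · have := perm_of_swap (G z) (fun pre post a b => ?_) hl []
    · simpa using this
    · exact swap_of_cont z hz0 a b (fun a' => G z (pre ++ a' :: b :: post))
        (fun a' => G z (pre ++ b :: a' :: post)) (hcont pre (b :: post) a).1
        (hcont2 pre post a b).1 (fun a' => G_swap hYB hSYM z hz pre post a' b)
  · have := perm_of_swap (A z) (fun pre post a b => ?_) hl []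
    · simpa using this
    · exact swap_of_cont z hz0 a b (fun a' => A z (pre ++ a' :: b :: post))
        (fun a' => A z (pre ++ b :: a' :: post)) (hcont pre (b :: post) a).2
        (hcont2 pre post a b).2 (fun a' => A_swap hYB hSYM z hz pre post a' b)

end Pool.Agent.U122.OA
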